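import Pool.Agent.W594.SYZ.Fam

set_option autoImplicit false

/-!
# Primitive symplectic torus quotients of dimension `2 * 3 ^ (m + 1)` with a line bundle of order three

`latt`, `IsTorusQuotient`, `IsForm`, `IsPrimitiveSymplectic`, `LineBundle`, `LineBundle.pow`,
`LineBundle.IsSection` and `LineBundle.IsTrivial` are defined in `Pool.Agent.W594.SYZ.Defs2`.
-/

namespace Pool.Agent.Results.MP_e4ecdb_ag.TorsionFamily

open Pool.Agent.W594.SYZ2

/-- For every `m` there are a primitive symplectic variety `X = V / Γ` of dimension `2 * 3 ^ (m + 1)`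
and a line bundle `L` on `X` such that `L ^ k` is isomorphic to `O_X` exactly when `3` divides `k` (so
`L` is not trivial, `c_1(L) = 0` in `H^2(X, ℝ)`, `L` is nef, movable, and `q_X(L) = 0`), and for
every `k` any two sections of `L ^ k` are linearly dependent, so that the linear system `|L ^ k|` is
empty or a point. -/
theorem result (m : ℕ) :
    Module.finrank ℂ (Bool × ZMod (3 ^ (m + 1)) → ℂ) = 2 * 3 ^ (m + 1) ∧
    ∃ Γ : Subgroup ((Bool × ZMod (3 ^ (m + 1)) → ℂ) ≃ᵃ[ℂ] (Bool × ZMod (3 ^ (m + 1)) → ℂ)),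
      IsPrimitiveSymplectic Γ ∧ ∃ L : LineBundle Γ,
        (∀ k : ℕ, (L.pow k).IsTrivial ↔ 3 ∣ k) ∧
        ∀ (k : ℕ) (s t : (Bool × ZMod (3 ^ (m + 1)) → ℂ) → ℂ),
          (L.pow k).IsSection s → (L.pow k).IsSection t →
            ∃ a b : ℂ, (a ≠ 0 ∨ b ≠ 0) ∧ ∀ v, a * s v + b * t v = 0 := by
  refine ⟨?_, Fam.Γ m, Fam.isPrimitiveSymplectic, Fam.L m, ?_, ?_⟩
  · rw [Module.finrank_fintype_fun_eq_card, Fintype.card_prod, Fintype.card_bool, ZMod.card]
  · intro k
    constructor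
    · intro h
      by_contra hk
      exact Fam.L_pow_not_trivial hk h
    · rintro ⟨j, rfl⟩
      refine ⟨fun _ => 1, ⟨differentiable_const _, fun γ v => ?_⟩, fun _ => one_ne_zero⟩
      show (1 : ℂ) = Fam.chi (γ : Fam.V m ≃ᵃ[ℂ] Fam.V m) ^ (3 * j) * 1
      rw [pow_mul, Fam.chi_cube γ.2, one_pow, one_mul]
  · intro k s t hs ht
    by_cases h : s 0 = 0
    · refine ⟨1, 0, Or.inl one_ne_zero, fun v => ?_⟩
      rw [Fam.section_const k hs v 0, h]; ring
    · refine ⟨t 0, -s 0, Or.inr (neg_ne_zero.2 h), fun v => ?_⟩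
      rw [Fam.section_const k hs v 0, Fam.section_const k ht v 0]; ring

end Pool.Agent.Results.MP_e4ecdb_ag.TorsionFamily
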